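import Mathlib

set_option autoImplicit false

/-!
Squad AK (MP_d7b937_an, n = 2): A^infinity is dense in A^k on smooth pseudoconvex domains of C^2.
Basic definitions.
-/

namespace Pool.Agent.AK

open Complex

/-- Wirtinger derivative d/dz_j (first order, of a function with values in a complex space). -/
noncomputable def dz {n : ℕ} {V : Type*} [NormedAddCommGroup V] [NormedSpace ℂ V]
    (j : Fin n) (u : (Fin n → ℂ) → V) (p : Fin n → ℂ) : V :=
  (1 / 2 : ℂ) • (fderiv ℝ u p (Pi.single j 1) - Complex.I • fderiv ℝ u p (Pi.single j Complex.I))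

/-- Wirtinger derivative d/dzbar_j. -/
noncomputable def dzb {n : ℕ} {V : Type*} [NormedAddCommGroup V] [NormedSpace ℂ V]
    (j : Fin n) (u : (Fin n → ℂ) → V) (p : Fin n → ℂ) : V :=
  (1 / 2 : ℂ) • (fderiv ℝ u p (Pi.single j 1) + Complex.I • fderiv ℝ u p (Pi.single j Complex.I))

/-- The part of {rho < kap} near the closure of Omega. -/
def OmK {n : ℕ} (ρ : (Fin n → ℂ) → ℝ) (Ω : Set (Fin n → ℂ)) (κ : ℝ) : Set (Fin n → ℂ) :=
  {z | ρ z < κ} ∩ Metric.thickening 1 Ω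

/-- A bounded domain with smooth boundary given by rho (no pseudoconvexity). -/
structure SmoothDom {n : ℕ} (Ω : Set (Fin n → ℂ)) (ρ : (Fin n → ℂ) → ℝ) : Prop where
  smooth : ContDiff ℝ ((⊤ : ℕ∞) : WithTop ℕ∞) ρ
  eq : Ω = {z | ρ z < 0}
  bdd : Bornology.IsBounded Ω
  conn : IsConnected Ω
  grad : ∀ p, ρ p = 0 → fderiv ℝ ρ p ≠ 0

/-- The Levi condition, literally as in the frozen statement. -/
def LeviPsc {n : ℕ} (ρ : (Fin n → ℂ) → ℝ) : Prop :=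
  ∀ p, ρ p = 0 → ∀ w : Fin n → ℂ, fderiv ℝ ρ p w = 0 →
    fderiv ℝ ρ p (Complex.I • w) = 0 →
    0 ≤ iteratedFDeriv ℝ 2 ρ p ![w, w]
      + iteratedFDeriv ℝ 2 ρ p ![Complex.I • w, Complex.I • w]

/-- The complexification of rho. -/
noncomputable def rc {n : ℕ} (ρ : (Fin n → ℂ) → ℝ) : (Fin n → ℂ) → ℂ := fun p => ((ρ p : ℝ) : ℂ)

/-! ### Dimension two: frame and structure functions -/

/-- The point space. -/
abbrev C2 := Fin 2 → ℂ

/-- rho_j = d rho / d z_j. -/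
noncomputable def rj (ρ : C2 → ℝ) (j : Fin 2) : C2 → ℂ := dz j (rc ρ)

/-- rho_{jbar}. -/
noncomputable def rjb (ρ : C2 → ℝ) (j : Fin 2) : C2 → ℂ := dzb j (rc ρ)

/-- rho_{j kbar}. -/
noncomputable def rjk (ρ : C2 → ℝ) (j k : Fin 2) : C2 → ℂ := dzb k (rj ρ j)

/-- |d rho|^2 = sum |rho_j|^2, as a complex function. -/
noncomputable def g2 (ρ : C2 → ℝ) : C2 → ℂ := fun p => rj ρ 0 p * rjb ρ 0 p + rj ρ 1 p * rjb ρ 1 p

/-- tangential (1,0) field tau = (rho_1, - rho_0). -/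
noncomputable def tau (ρ : C2 → ℝ) : C2 → C2 := fun p => ![rj ρ 1 p, - rj ρ 0 p]

/-- normal (1,0) field v, with d rho(v) = -1. -/
noncomputable def nu (ρ : C2 → ℝ) : C2 → C2 := fun p => ![- rjb ρ 0 p / g2 ρ p, - rjb ρ 1 p / g2 ρ p]

/-- Lbar = conj(tau) applied to a function. -/
noncomputable def Lbar {V : Type*} [NormedAddCommGroup V] [NormedSpace ℂ V]
    (ρ : C2 → ℝ) (u : C2 → V) : C2 → V :=
  fun p => rjb ρ 1 p • dzb 0 u p - rjb ρ 0 p • dzb 1 u p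

/-- Nbar = - conj(v), so Nbar rho = 1. -/
noncomputable def Nbar {V : Type*} [NormedAddCommGroup V] [NormedSpace ℂ V]
    (ρ : C2 → ℝ) (u : C2 → V) : C2 → V :=
  fun p => (rj ρ 0 p / g2 ρ p) • dzb 0 u p + (rj ρ 1 p / g2 ρ p) • dzb 1 u p

/-- The one-form sigma with sigma(tau) = 1, sigma(v) = 0. -/
noncomputable def sig (ρ : C2 → ℝ) (p : C2) (w : C2) : ℂ :=
  (rjb ρ 1 p * w 0 - rjb ρ 0 p * w 1) / g2 ρ p

/-- dbar v = A v + B tau, dbar tau = C v + E tau; k-th components. -/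
noncomputable def fA (ρ : C2 → ℝ) (k : Fin 2) : C2 → ℂ :=
  fun p => rjk ρ 0 k p * nu ρ p 0 + rjk ρ 1 k p * nu ρ p 1

noncomputable def fC (ρ : C2 → ℝ) (k : Fin 2) : C2 → ℂ :=
  fun p => rjk ρ 0 k p * tau ρ p 0 + rjk ρ 1 k p * tau ρ p 1

noncomputable def fB (ρ : C2 → ℝ) (k : Fin 2) : C2 → ℂ := fun p => sig ρ p (dzb k (nu ρ) p)

noncomputable def fE (ρ : C2 → ℝ) (k : Fin 2) : C2 → ℂ := fun p => sig ρ p (dzb k (tau ρ) p)

/-- The Levi function gamma = C(Lbar) (real valued; as a complex number). -/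
noncomputable def gam (ρ : C2 → ℝ) : C2 → ℂ :=
  fun p => fC ρ 0 p * rjb ρ 1 p - fC ρ 1 p * rjb ρ 0 p

/-- The k-th tower expression, component i of the (0,1)-form D_k. -/
noncomputable def Dk (ρ : C2 → ℝ) (c : ℕ → C2 → ℂ) (k : ℕ) (i : Fin 2) : C2 → ℂ :=
  fun p => dzb i (c k) p + ((k : ℂ) + 1) * fC ρ i p * c (k + 1) p
    + (k : ℂ) * (fE ρ i p - fA ρ i p) * c k p
    - ((k - 1 : ℕ) : ℂ) * fB ρ i p * c (k - 1) p
    + (if k = 0 then fA ρ i p else 0) + (if k = 1 then fB ρ i p else 0)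

end Pool.Agent.AK
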