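import Mathlib
import Pool.Agent.Helper60_AK.Defs

set_option autoImplicit false

/-!
Squad AK, part T: statements.

T1: the tangential system Lbar c + M c + b = gamma^m h is solvable near the hypersurface.
T2: the tower.
Between them: sequences on Z^4 (Fourier side).
-/

namespace Pool.Agent.AK

open Complex

/-! ### Function level -/

def T1Stmt : Prop :=
  ∀ (Ω : Set C2) (ρ : C2 → ℝ), SmoothDom Ω ρ →
    ∀ (N : ℕ) (U₀ : Set C2), IsOpen U₀ → {p | ρ p = 0} ⊆ U₀ →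
    ∀ (M : Fin N → Fin N → C2 → ℂ) (b : Fin N → C2 → ℂ),
      (∀ i j, ContDiffOn ℝ ((⊤ : ℕ∞) : WithTop ℕ∞) (M i j) U₀) →
      (∀ i, ContDiffOn ℝ ((⊤ : ℕ∞) : WithTop ℕ∞) (b i) U₀) →
    ∀ m s : ℕ, ∃ U : Set C2, IsOpen U ∧ {p | ρ p = 0} ⊆ U ∧ U ⊆ U₀ ∧
      ∃ c h : Fin N → C2 → ℂ,
        (∀ i, ContDiffOn ℝ (s : WithTop ℕ∞) (c i) U) ∧
        (∀ i, ContDiffOn ℝ (s : WithTop ℕ∞) (h i) U) ∧
        ∀ p ∈ U, ∀ i, Lbar ρ (c i) p + ∑ j, M i j p * c j p + b i p = (gam ρ p) ^ m * h i p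

/-- T2 (the tower). -/
def T2Stmt : Prop :=
  ∀ (Ω : Set C2) (ρ : C2 → ℝ), SmoothDom Ω ρ → ∀ J M s : ℕ,
    ∃ U : Set C2, IsOpen U ∧ {p | ρ p = 0} ⊆ U ∧ ∃ c : ℕ → C2 → ℂ,
      (∀ k, ContDiffOn ℝ (s : WithTop ℕ∞) (c k) U) ∧
      ∃ K : ℝ, ∀ k < J, ∀ p ∈ U, ∀ i : Fin 2, ‖Dk ρ c k i p‖ ≤ K * |ρ p| ^ M

/-- T2a: the tangential components of the tower vanish identically near the hypersurface. -/
def T2aStmt : Prop :=
  ∀ (Ω : Set C2) (ρ : C2 → ℝ), SmoothDom Ω ρ → ∀ J s : ℕ,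
    ∃ U : Set C2, IsOpen U ∧ {p | ρ p = 0} ⊆ U ∧ (∀ p ∈ U, g2 ρ p ≠ 0) ∧ ∃ c : ℕ → C2 → ℂ,
      (∀ k, ContDiffOn ℝ (s : WithTop ℕ∞) (c k) U) ∧
      ∀ k < J, ∀ p ∈ U, Dk ρ c k 0 p * rjb ρ 1 p - Dk ρ c k 1 p * rjb ρ 0 p = 0

/-! ### Sequence level -/

/-- The index set of Fourier coefficients. -/
abbrev Z4 := Fin 4 → ℤ

/-- sum of squares. -/
noncomputable def sq4 (k : Z4) : ℝ := ∑ i, ((k i : ℤ) : ℝ) ^ 2

/-- Lambda_A(k) = sqrt (A + |k|^2). -/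
noncomputable def Lam (A : ℝ) (k : Z4) : ℝ := Real.sqrt (A + sq4 k)

/-- Rapidly decreasing sequences. -/
def Rap {V : Type*} [NormedAddCommGroup V] (a : Z4 → V) : Prop :=
  ∀ n : ℕ, ∃ C : ℝ, ∀ k, Lam 1 k ^ n * ‖a k‖ ≤ C

/-- scalar convolution. -/
noncomputable def scv {V : Type*} [NormedAddCommGroup V] [NormedSpace ℂ V]
    (a : Z4 → ℂ) (w : Z4 → V) : Z4 → V := fun k => ∑' l, a (k - l) • w l

/-- operator valued convolution. -/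
noncomputable def cv {V : Type*} [NormedAddCommGroup V] [NormedSpace ℂ V]
    (a : Z4 → (V →L[ℂ] V)) (w : Z4 → V) : Z4 → V := fun k => ∑' l, (a (k - l)) (w l)

/-- the derivative d/dx_j on the Fourier side (period one). -/
noncomputable def dj {V : Type*} [NormedAddCommGroup V] [NormedSpace ℂ V]
    (j : Fin 4) (w : Z4 → V) : Z4 → V :=
  fun k => (2 * (Real.pi : ℂ) * Complex.I * ((k j : ℤ) : ℂ)) • w k

/-- complex conjugation of functions. -/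
noncomputable def stS (a : Z4 → ℂ) : Z4 → ℂ := fun k => (starRingEnd ℂ) (a (-k))

/-- adjoint of matrix functions. -/
noncomputable def stM {N : ℕ}
    (a : Z4 → (EuclideanSpace ℂ (Fin N) →L[ℂ] EuclideanSpace ℂ (Fin N))) :
    Z4 → (EuclideanSpace ℂ (Fin N) →L[ℂ] EuclideanSpace ℂ (Fin N)) :=
  fun k => ContinuousLinearMap.adjoint (a (-k))

/-- the vector field with coefficients a. -/
noncomputable def vf {V : Type*} [NormedAddCommGroup V] [NormedSpace ℂ V]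
    (a : Fin 4 → Z4 → ℂ) (w : Z4 → V) : Z4 → V := fun k => ∑ j, scv (a j) (dj j w) k

/-- H^s membership, s an integer. -/
def HS {V : Type*} [NormedAddCommGroup V] (s : ℤ) (w : Z4 → V) : Prop :=
  Summable fun k => Lam 1 k ^ (2 * s) * ‖w k‖ ^ 2

/-- the H^s norm with parameter A (a square root of a tsum). -/
noncomputable def hn {V : Type*} [NormedAddCommGroup V] (A : ℝ) (s : ℤ) (w : Z4 → V) : ℝ :=
  Real.sqrt (∑' k, Lam A k ^ (2 * s) * ‖w k‖ ^ 2)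

/-- The data of the abstract theorem: Lbar = vf a on the torus, T = vf τ, etc. -/
structure TData (N : ℕ) where
  a : Fin 4 → Z4 → ℂ
  τ : Fin 4 → Z4 → ℂ
  e : Fin 4 → Z4 → ℂ
  γ : Z4 → ℂ
  φ : Z4 → ℂ
  χ : Z4 → ℂ
  α : Z4 → ℂ
  π1 : Z4 → ℂ
  π2 : Z4 → ℂ
  β : Z4 → ℂ
  M : Z4 → (EuclideanSpace ℂ (Fin N) →L[ℂ] EuclideanSpace ℂ (Fin N))
  c0 : ℝ
  hc0 : 0 < c0
  ra : ∀ j, Rap (a j)
  rτ : ∀ j, Rap (τ j)
  re : ∀ j, Rap (e j)
  rγ : Rap γ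
  rφ : Rap φ
  rχ : Rap χ
  rα : Rap α
  rπ1 : Rap π1
  rπ2 : Rap π2
  rβ : Rap β
  rM : Rap M
  sγ : stS γ = γ
  sφ : stS φ = φ
  sχ : stS χ = χ
  /-- commutator: (Lbar abar_j) - (L a_j) = - γ τ_j + α abar_j - αbar a_j + χ e_j -/
  comm : ∀ j k, vf a (stS (a j)) k - vf (fun i => stS (a i)) (a j) k =
    - scv γ (τ j) k + scv α (stS (a j)) k - scv (stS α) (a j) k + scv χ (e j) k
  /-- positivity: Lbar L φ + L Lbar φ - α L φ - αbar Lbar φ = 2 c0 + β βbar + γ π1 + χ π2 -/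
  pos : ∀ k, vf a (vf (fun i => stS (a i)) φ) k + vf (fun i => stS (a i)) (vf a φ) k
      - scv α (vf (fun i => stS (a i)) φ) k - scv (stS α) (vf a φ) k =
    (if k = 0 then (2 * (c0 : ℂ)) else 0) + scv β (stS β) k + scv γ π1 k + scv χ π2 k

/-- Q_t w = Lbar w + (t/2)(Lbar φ) w + M w. -/
noncomputable def TData.Q {N : ℕ} (D : TData N) (t : ℝ) (w : Z4 → EuclideanSpace ℂ (Fin N)) :
    Z4 → EuclideanSpace ℂ (Fin N) :=
  fun k => vf D.a w k + ((t / 2 : ℝ) : ℂ) • scv (vf D.a D.φ) w k + cv D.M w k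

/-- its formal adjoint Q_t^* w = - L w - (div abar) w + (t/2)(L φ) w + M^* w. -/
noncomputable def TData.Qs {N : ℕ} (D : TData N) (t : ℝ) (w : Z4 → EuclideanSpace ℂ (Fin N)) :
    Z4 → EuclideanSpace ℂ (Fin N) :=
  fun k => - vf (fun i => stS (D.a i)) w k
    - scv (fun l => ∑ j, dj j (stS (D.a j)) l) w k
    + ((t / 2 : ℝ) : ℂ) • scv (vf (fun i => stS (D.a i)) D.φ) w k + cv (stM D.M) w k

/-- TCORE: the abstract existence theorem on the torus. -/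
def TCoreStmt : Prop :=
  ∀ (N : ℕ) (D : TData N) (m s : ℕ), ∃ t : ℝ, ∀ b : Z4 → EuclideanSpace ℂ (Fin N), Rap b →
    ∃ c h g : Z4 → EuclideanSpace ℂ (Fin N),
      HS (s : ℤ) c ∧ HS ((s : ℤ) - m) h ∧ HS ((s : ℤ) - 1) g ∧
      ∀ k, D.Q t c k + ((scv D.γ)^[m] h) k + scv D.χ g k = b k

/-- MI: the main a priori inequality. -/
def MIStmt : Prop :=
  ∀ (N : ℕ) (D : TData N) (m s : ℕ), 1 ≤ m → ∃ t : ℝ, ∃ C : ℝ,
    ∀ v : Z4 → EuclideanSpace ℂ (Fin N), Rap v →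
      hn 1 (-(s : ℤ)) v ≤ C * (hn 1 (-(s : ℤ)) (D.Qs t v)
        + hn 1 ((m : ℤ) - s) ((scv D.γ)^[m] v) + hn 1 (1 - (s : ℤ)) (scv D.χ v))

end Pool.Agent.AK
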