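import Mathlib
import Pool.Agent.Helper60_AK.StmtT

set_option autoImplicit false

/-!
Squad AK, part T, sequence level: statements of the modules A1 - A10.
-/

namespace Pool.Agent.AK

open Complex

/-- the L^2 pairing of sequences. -/
noncomputable def ip {V : Type*} [NormedAddCommGroup V] [InnerProductSpace ℂ V]
    (v w : Z4 → V) : ℂ := ∑' k, inner ℂ (v k) (w k)

/-- multiplication by Lambda_A^s. -/
noncomputable def Lm {V : Type*} [NormedAddCommGroup V] [NormedSpace ℂ V]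
    (A : ℝ) (s : ℤ) (w : Z4 → V) : Z4 → V := fun k => ((Lam A k ^ s : ℝ) : ℂ) • w k

/-- A1: closure properties of rapidly decreasing sequences. -/
def A1Stmt : Prop :=
  (∀ (V : Type) [NormedAddCommGroup V] [NormedSpace ℂ V] [CompleteSpace V] (a : Z4 → ℂ)
    (w : Z4 → V), Rap a → Rap w → Rap (scv a w) ∧ ∀ k, Summable fun l => a (k - l) • w l) ∧
  (∀ (V : Type) [NormedAddCommGroup V] [NormedSpace ℂ V] [CompleteSpace V]
    (a : Z4 → (V →L[ℂ] V)) (w : Z4 → V), Rap a → Rap w →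
      Rap (cv a w) ∧ ∀ k, Summable fun l => (a (k - l)) (w l)) ∧
  (∀ (V : Type) [NormedAddCommGroup V] [NormedSpace ℂ V] (j : Fin 4) (w : Z4 → V),
    Rap w → Rap (dj j w)) ∧
  (∀ a : Z4 → ℂ, Rap a → Rap (stS a)) ∧
  (∀ (N : ℕ) (a : Z4 → (EuclideanSpace ℂ (Fin N) →L[ℂ] EuclideanSpace ℂ (Fin N))),
    Rap a → Rap (stM a)) ∧
  (∀ (V : Type) [NormedAddCommGroup V] [NormedSpace ℂ V] (A : ℝ) (s : ℤ) (w : Z4 → V), 1 ≤ A →
    Rap w → (Rap (Lm A s w) ∧ (Summable fun k => Lam A k ^ s * ‖w k‖) ∧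
      Summable fun k => Lam A k ^ (2 * s) * ‖w k‖ ^ 2)) ∧
  (∀ (V : Type) [NormedAddCommGroup V] [NormedSpace ℂ V] (a : Z4 → ℂ), Rap a →
    Rap (fun k => a k • (ContinuousLinearMap.id ℂ V)))

/-- A2: algebra of convolutions. -/
def A2Stmt : Prop :=
  (∀ (V : Type) [NormedAddCommGroup V] [NormedSpace ℂ V] [CompleteSpace V] (a b : Z4 → ℂ)
    (w : Z4 → V), Rap a → Rap b → Rap w → scv a (scv b w) = scv (scv a b) w) ∧
  (∀ a b : Z4 → ℂ, Rap a → Rap b → scv a b = scv b a) ∧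
  (∀ (V : Type) [NormedAddCommGroup V] [NormedSpace ℂ V] [CompleteSpace V] (j : Fin 4)
    (a : Z4 → ℂ) (w : Z4 → V), Rap a → Rap w →
      dj j (scv a w) = fun k => scv (dj j a) w k + scv a (dj j w) k) ∧
  (∀ (V : Type) [NormedAddCommGroup V] [NormedSpace ℂ V] [CompleteSpace V] (j : Fin 4)
    (a : Z4 → (V →L[ℂ] V)) (w : Z4 → V), Rap a → Rap w →
      dj j (cv a w) = fun k => cv (dj j a) w k + cv a (dj j w) k) ∧
  (∀ (V : Type) [NormedAddCommGroup V] [NormedSpace ℂ V] [CompleteSpace V]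
    (M : Z4 → (V →L[ℂ] V)) (a : Z4 → ℂ) (w : Z4 → V), Rap M → Rap a → Rap w →
      cv M (scv a w) = scv a (cv M w)) ∧
  (∀ (V : Type) [NormedAddCommGroup V] [NormedSpace ℂ V] [CompleteSpace V]
    (M M' : Z4 → (V →L[ℂ] V)), Rap M → Rap M' →
      ∃ M2 : Z4 → (V →L[ℂ] V), Rap M2 ∧ ∀ w : Z4 → V, Rap w → cv M (cv M' w) = cv M2 w) ∧
  (∀ (V : Type) [NormedAddCommGroup V] [NormedSpace ℂ V] [CompleteSpace V]
    (M : Z4 → (V →L[ℂ] V)) (a : Z4 → ℂ), Rap M → Rap a →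
      ∃ M2 : Z4 → (V →L[ℂ] V), Rap M2 ∧ ∀ w : Z4 → V, Rap w → scv a (cv M w) = cv M2 w) ∧
  (∀ (i j : Fin 4) (V : Type) [NormedAddCommGroup V] [NormedSpace ℂ V] (w : Z4 → V),
    dj i (dj j w) = dj j (dj i w))

/-- A3: adjoints. -/
def A3Stmt : Prop :=
  (∀ (V : Type) [NormedAddCommGroup V] [InnerProductSpace ℂ V] [CompleteSpace V] (a : Z4 → ℂ)
    (v w : Z4 → V), Rap a → Rap v → Rap w → ip (scv a v) w = ip v (scv (stS a) w)) ∧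
  (∀ (N : ℕ) (a : Z4 → (EuclideanSpace ℂ (Fin N) →L[ℂ] EuclideanSpace ℂ (Fin N)))
    (v w : Z4 → EuclideanSpace ℂ (Fin N)), Rap a → Rap v → Rap w →
      ip (cv a v) w = ip v (cv (stM a) w)) ∧
  (∀ (V : Type) [NormedAddCommGroup V] [InnerProductSpace ℂ V] [CompleteSpace V] (j : Fin 4)
    (v w : Z4 → V), Rap v → Rap w → ip (dj j v) w = - ip v (dj j w)) ∧
  (∀ (V : Type) [NormedAddCommGroup V] [InnerProductSpace ℂ V] [CompleteSpace V] (A : ℝ) (s : ℤ)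
    (v w : Z4 → V), 1 ≤ A → Rap v → Rap w → ip (Lm A s v) w = ip v (Lm A s w)) ∧
  (∀ (V : Type) [NormedAddCommGroup V] [InnerProductSpace ℂ V] [CompleteSpace V]
    (A : ℝ) (s : ℤ) (v w : Z4 → V), 1 ≤ A → Rap v → Rap w →
      ‖ip v w‖ ≤ hn A s v * hn A (-s) w) ∧
  (∀ (V : Type) [NormedAddCommGroup V] [InnerProductSpace ℂ V] [CompleteSpace V]
    (A : ℝ) (w : Z4 → V), 1 ≤ A → Rap w → ip w w = (((hn A 0 w) ^ 2 : ℝ) : ℂ)) ∧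
  (∀ (N : ℕ) (D : TData N) (t : ℝ) (v w : Z4 → EuclideanSpace ℂ (Fin N)), Rap v → Rap w →
      (Rap (D.Q t v) ∧ Rap (D.Qs t v) ∧ ip (D.Q t v) w = ip v (D.Qs t w)))

/-- A4: Young's inequality for kernels. -/
def A4Stmt : Prop :=
  ∀ (V : Type) [NormedAddCommGroup V] [NormedSpace ℂ V] [CompleteSpace V]
    (K : Z4 → Z4 → (V →L[ℂ] V)) (g : Z4 → ℝ) (w : Z4 → V), (∀ k, 0 ≤ g k) → Summable g →
    (∀ k l, ‖K k l‖ ≤ g (k - l)) → (Summable fun k => ‖w k‖ ^ 2) →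
    (∀ k, Summable fun l => K k l (w l)) ∧
    (Summable fun k => ‖∑' l, K k l (w l)‖ ^ 2) ∧
    ∑' k, ‖∑' l, K k l (w l)‖ ^ 2 ≤ (∑' k, g k) ^ 2 * ∑' k, ‖w k‖ ^ 2

/-- A5: multiplication and commutator estimates, uniform in A >= 1. -/
def A5Stmt : Prop :=
  (∀ (V : Type) [NormedAddCommGroup V] [NormedSpace ℂ V] [CompleteSpace V] (s : ℤ)
    (a : Z4 → (V →L[ℂ] V)), Rap a → ∃ C : ℝ, 0 ≤ C ∧ ∀ A : ℝ, 1 ≤ A → ∀ w : Z4 → V, Rap w →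
      hn A s (cv a w) ≤ C * hn A s w) ∧
  (∀ (V : Type) [NormedAddCommGroup V] [NormedSpace ℂ V] [CompleteSpace V] (s s' : ℤ)
    (a : Z4 → (V →L[ℂ] V)), Rap a → ∃ C : ℝ, 0 ≤ C ∧ ∀ A : ℝ, 1 ≤ A → ∀ w : Z4 → V, Rap w →
      hn A s' (fun k => Lm A s (cv a w) k - cv a (Lm A s w) k) ≤ C * hn A (s + s' - 1) w)

/-- A6: interpolation. -/
def A6Stmt : Prop :=
  ∀ (V : Type) [NormedAddCommGroup V] [InnerProductSpace ℂ V] [CompleteSpace V] (γ : Z4 → ℂ),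
    Rap γ → stS γ = γ → ∀ (m : ℕ) (s : ℤ), 2 ≤ m → ∀ δ : ℝ, 0 < δ → ∃ C : ℝ, 0 ≤ C ∧
    ∀ A : ℝ, 1 ≤ A → ∀ v : Z4 → V, Rap v →
      hn A (1 - s) (scv γ v) ≤ δ * hn A ((m : ℤ) - s) ((scv γ)^[m] v) + C * hn A (-s) v

/-- A7: the commutator [Q_t, Q_t^*]. -/
def A7Stmt : Prop :=
  ∀ (N : ℕ) (D : TData N),
    ∃ Z : Z4 → (EuclideanSpace ℂ (Fin N) →L[ℂ] EuclideanSpace ℂ (Fin N)), Rap Z ∧
    ∀ (t : ℝ) (w : Z4 → EuclideanSpace ℂ (Fin N)), Rap w → ∀ k,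
      D.Q t (D.Qs t w) k - D.Qs t (D.Q t w) k =
        scv D.γ (vf D.τ w) k + scv D.α (D.Qs t w) k + scv (stS D.α) (D.Q t w) k
        + ((t / 2 : ℝ) : ℂ) • ((2 * (D.c0 : ℂ)) • w k + scv D.β (scv (stS D.β) w) k
            + scv D.γ (scv D.π1 w) k + scv D.χ (scv D.π2 w) k)
        - scv D.χ (vf D.e w) k + cv Z w k

/-- A8: the weighted L^2 estimate. -/
def A8Stmt : Prop :=
  ∀ (N : ℕ) (D : TData N), ∃ C : ℝ, 0 ≤ C ∧ ∀ t A : ℝ, 1 ≤ t → t ^ 2 ≤ A →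
    ∀ w : Z4 → EuclideanSpace ℂ (Fin N), Rap w →
      t * D.c0 * hn A 0 w ^ 2 ≤ 2 * hn A 0 (D.Qs t w) ^ 2 + C * hn A 0 w ^ 2
        + C * hn A 0 w * (hn A 1 (scv D.γ w) + hn A 1 (scv D.χ w))

/-! Module table (uses):
A1 : -
A2 : A1
A3 : A1, A2
A4 : -
A5 : A1, A4
A6 : A1, A2, A3, A5
A7 : A1, A2
A8 : A1, A2, A3, A5, A7
A9 : A1, A2, A3, A5, A6, A8 -> MIStmt
A10: A1, A3, MIStmt -> TCoreStmt
-/

end Pool.Agent.AK
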