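import Mathlib
import Pool.Agent.Helper60_AK.StmtT

set_option autoImplicit false

/-!
Squad AK, part T: from functions to sequences and back (B), and the tower (C).
-/

namespace Pool.Agent.AK

open Complex

/-- real four space. -/
abbrev R4 := Fin 4 → ℝ

/-- partial derivative in R^4. -/
noncomputable def pd {V : Type*} [NormedAddCommGroup V] [NormedSpace ℝ V]
    (j : Fin 4) (f : R4 → V) (x : R4) : V := fderiv ℝ f x (Pi.single j 1)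

/-- smooth, one-periodic functions. -/
structure PerSm (f : R4 → ℂ) : Prop where
  smooth : ContDiff ℝ ((⊤ : ℕ∞) : WithTop ℕ∞) f
  per : ∀ (n : Fin 4 → ℤ) (x : R4), f (fun i => x i + ((n i : ℤ) : ℝ)) = f x

/-- the characters. -/
noncomputable def ch (k : Z4) (x : R4) : ℂ :=
  Complex.exp (2 * (Real.pi : ℂ) * Complex.I * (∑ i, ((k i : ℤ) : ℂ) * ((x i : ℝ) : ℂ)))

/-- Fourier coefficients. -/
noncomputable def FC (f : R4 → ℂ) (k : Z4) : ℂ :=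
  ∫ x in Set.pi Set.univ (fun _ : Fin 4 => Set.Ioc (0 : ℝ) 1), ch (-k) x * f x

/-- B1: Fourier coefficients of smooth periodic functions. -/
def B1Stmt : Prop :=
  (∀ f : R4 → ℂ, PerSm f → Rap (FC f) ∧ ∀ x, HasSum (fun k => ch k x * FC f k) (f x)) ∧
  (∀ f g : R4 → ℂ, PerSm f → PerSm g → FC (fun x => f x * g x) = scv (FC f) (FC g)) ∧
  (∀ (j : Fin 4) (f : R4 → ℂ), PerSm f → PerSm (pd j f) ∧ FC (pd j f) = dj j (FC f)) ∧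
  (∀ f : R4 → ℂ, PerSm f →
    PerSm (fun x => (starRingEnd ℂ) (f x)) ∧ FC (fun x => (starRingEnd ℂ) (f x)) = stS (FC f)) ∧
  (∀ c : ℂ, PerSm (fun _ => c) ∧ FC (fun _ => c) = fun k => if k = 0 then c else 0) ∧
  (∀ f g : R4 → ℂ, PerSm f → PerSm g → PerSm (fun x => f x + g x) ∧ PerSm (fun x => f x * g x) ∧
    FC (fun x => f x + g x) = fun k => FC f k + FC g k)

/-- the function with Fourier coefficients c. -/
noncomputable def syn (c : Z4 → ℂ) (x : R4) : ℂ := ∑' k, ch k x * c k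

/-- B2: synthesis. Sobolev sequences give C^s functions. -/
def B2Stmt : Prop :=
  (∀ (s : ℕ) (q : ℤ) (c : Z4 → ℂ), (s : ℤ) + 3 ≤ q → HS q c →
    ContDiff ℝ (s : WithTop ℕ∞) (syn c)) ∧
  (∀ (q : ℤ) (c : Z4 → ℂ), 4 ≤ q → HS q c → ∀ (j : Fin 4) (x : R4),
    DifferentiableAt ℝ (syn c) x ∧ pd j (syn c) x = syn (dj j c) x) ∧
  (∀ (q : ℤ) (c : Z4 → ℂ) (f : R4 → ℂ), 3 ≤ q → HS q c → PerSm f →
    HS q (scv (FC f) c) ∧ ∀ x, syn (scv (FC f) c) x = f x * syn c x) ∧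
  (∀ (q : ℤ) (c : Z4 → ℂ) (j : Fin 4), HS q c → HS (q - 1) (dj j c)) ∧
  (∀ (c d : Z4 → ℂ), HS 3 c → HS 3 d → ∀ x, syn (fun k => c k + d k) x = syn c x + syn d x)

/-! ### Data on the torus as functions -/

/-- the vector field with coefficient functions a. -/
noncomputable def vff (a : Fin 4 → R4 → ℂ) (f : R4 → ℂ) (x : R4) : ℂ := ∑ j, a j x * pd j f x

/-- complex conjugate of a function -/
noncomputable def cj (f : R4 → ℂ) : R4 → ℂ := fun x => (starRingEnd ℂ) (f x)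

/-- function version of TData. -/
structure FData (N : ℕ) where
  a : Fin 4 → R4 → ℂ
  τ : Fin 4 → R4 → ℂ
  e : Fin 4 → R4 → ℂ
  γ : R4 → ℂ
  φ : R4 → ℂ
  χ : R4 → ℂ
  α : R4 → ℂ
  π1 : R4 → ℂ
  π2 : R4 → ℂ
  β : R4 → ℂ
  M : Fin N → Fin N → R4 → ℂ
  c0 : ℝ
  hc0 : 0 < c0
  ra : ∀ j, PerSm (a j)
  rτ : ∀ j, PerSm (τ j)
  re : ∀ j, PerSm (e j)
  rγ : PerSm γ
  rφ : PerSm φ
  rχ : PerSm χ
  rα : PerSm α
  rπ1 : PerSm π1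
  rπ2 : PerSm π2
  rβ : PerSm β
  rM : ∀ i j, PerSm (M i j)
  sγ : ∀ x, (starRingEnd ℂ) (γ x) = γ x
  sφ : ∀ x, (starRingEnd ℂ) (φ x) = φ x
  sχ : ∀ x, (starRingEnd ℂ) (χ x) = χ x
  comm : ∀ j x, vff a (cj (a j)) x - vff (fun i => cj (a i)) (a j) x =
    - (γ x * τ j x) + α x * cj (a j) x - cj α x * a j x + χ x * e j x
  pos : ∀ x, vff a (vff (fun i => cj (a i)) φ) x + vff (fun i => cj (a i)) (vff a φ) x
      - α x * vff (fun i => cj (a i)) φ x - cj α x * vff a φ x =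
    2 * (c0 : ℂ) + β x * cj β x + γ x * π1 x + χ x * π2 x

/-- the box coordinates of a point of C^2 (scaled by R). -/
noncomputable def xc (R : ℝ) (p : C2) : R4 :=
  ![(p 0).re / R, (p 0).im / R, (p 1).re / R, (p 1).im / R]

/-- L = tau applied to a function. -/
noncomputable def Lhol {V : Type*} [NormedAddCommGroup V] [NormedSpace ℂ V]
    (ρ : C2 → ℝ) (u : C2 → V) : C2 → V :=
  fun p => rj ρ 1 p • dz 0 u p - rj ρ 0 p • dz 1 u p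

/-- the coefficient alpha in [Lbar, L] = - gamma (N - Nbar) + alpha L - alphabar Lbar. -/
noncomputable def alp (ρ : C2 → ℝ) (p : C2) : ℂ :=
  sig ρ p ![Lbar ρ (rj ρ 1) p, - Lbar ρ (rj ρ 0) p]

/-- |z|^2 as a complex function. -/
noncomputable def nsq : C2 → ℂ := fun q => ((Complex.normSq (q 0) + Complex.normSq (q 1) : ℝ) : ℂ)

/-- B4: the identities behind FData.comm and FData.pos, pointwise where d rho /= 0. -/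
def B4Stmt : Prop :=
  ∀ (ρ : C2 → ℝ), ContDiff ℝ ((⊤ : ℕ∞) : WithTop ℕ∞) ρ → ∀ p : C2,
    (∀ j, rjb ρ j p = (starRingEnd ℂ) (rj ρ j p)) ∧
    (starRingEnd ℂ) (gam ρ p) = gam ρ p ∧
    g2 ρ p = ((Complex.normSq (rj ρ 0 p) + Complex.normSq (rj ρ 1 p) : ℝ) : ℂ) ∧
    (g2 ρ p ≠ 0 ↔ fderiv ℝ ρ p ≠ 0) ∧
    (g2 ρ p ≠ 0 →
      Lbar ρ (rj ρ 1) p = - (gam ρ p * (rjb ρ 0 p / g2 ρ p)) + alp ρ p * rj ρ 1 p ∧
      - Lbar ρ (rj ρ 0) p = - (gam ρ p * (rjb ρ 1 p / g2 ρ p)) - alp ρ p * rj ρ 0 p ∧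
      Lbar ρ (Lhol ρ nsq) p + Lhol ρ (Lbar ρ nsq) p - alp ρ p * Lhol ρ nsq p
          - (starRingEnd ℂ) (alp ρ p) * Lbar ρ nsq p =
        2 * g2 ρ p - gam ρ p * ((rjb ρ 0 p * (starRingEnd ℂ) (p 0)
            + rjb ρ 1 p * (starRingEnd ℂ) (p 1) + rj ρ 0 p * p 0 + rj ρ 1 p * p 1) / g2 ρ p))

/-- B5: the data exist. -/
def B5Stmt : Prop :=
  ∀ (Ω : Set C2) (ρ : C2 → ℝ), SmoothDom Ω ρ →
    ∀ (N : ℕ) (U₀ : Set C2), IsOpen U₀ → {p | ρ p = 0} ⊆ U₀ →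
    ∀ (M : Fin N → Fin N → C2 → ℂ),
      (∀ i j, ContDiffOn ℝ ((⊤ : ℕ∞) : WithTop ℕ∞) (M i j) U₀) →
    ∃ (R : ℝ) (D : FData N) (U : Set C2), 0 < R ∧ IsOpen U ∧ {p | ρ p = 0} ⊆ U ∧ U ⊆ U₀ ∧
      (∀ p ∈ U, ∀ i, |xc R p i| < 1 / 2) ∧
      (∀ p ∈ U, D.γ (xc R p) = gam ρ p ∧ D.χ (xc R p) = 0 ∧
        D.φ (xc R p) = ((Complex.normSq (p 0) + Complex.normSq (p 1) : ℝ) : ℂ) ∧
        ∀ i j, D.M i j (xc R p) = M i j p) ∧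
      (∀ (u : R4 → ℂ) (p : C2), p ∈ U → DifferentiableAt ℝ u (xc R p) →
        Lbar ρ (fun q => u (xc R q)) p = vff D.a u (xc R p)) ∧
      (∀ (b : C2 → ℂ), ContDiffOn ℝ ((⊤ : ℕ∞) : WithTop ℕ∞) b U₀ →
        ∃ bt : R4 → ℂ, PerSm bt ∧ ∀ p ∈ U, bt (xc R p) = b p)

/-- B6 is : A-part TCoreStmt, B1, B2, B5 give T1Stmt. -/
def B6Stmt : Prop := TCoreStmt → B1Stmt → B2Stmt → B5Stmt → T1Stmt

/-! ### The tower -/

/-- C1: structure equations of the frame. -/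
def C1Stmt : Prop :=
  ∀ (ρ : C2 → ℝ), ContDiff ℝ ((⊤ : ℕ∞) : WithTop ℕ∞) ρ → ∀ p : C2, g2 ρ p ≠ 0 →
    (∀ k : Fin 2, dzb k (nu ρ) p = fA ρ k p • nu ρ p + fB ρ k p • tau ρ p) ∧
    (∀ k : Fin 2, dzb k (tau ρ) p = fC ρ k p • nu ρ p + fE ρ k p • tau ρ p) ∧
    (dzb 0 (fA ρ 1) p - dzb 1 (fA ρ 0) p = fB ρ 0 p * fC ρ 1 p - fB ρ 1 p * fC ρ 0 p) ∧
    (dzb 0 (fB ρ 1) p - dzb 1 (fB ρ 0) p = (fA ρ 0 p * fB ρ 1 p - fA ρ 1 p * fB ρ 0 p)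
      + (fB ρ 0 p * fE ρ 1 p - fB ρ 1 p * fE ρ 0 p)) ∧
    (dzb 0 (fC ρ 1) p - dzb 1 (fC ρ 0) p = (fC ρ 0 p * fA ρ 1 p - fC ρ 1 p * fA ρ 0 p)
      + (fE ρ 0 p * fC ρ 1 p - fE ρ 1 p * fC ρ 0 p)) ∧
    (dzb 0 (fE ρ 1) p - dzb 1 (fE ρ 0) p = fC ρ 0 p * fB ρ 1 p - fC ρ 1 p * fB ρ 0 p)

/-- C2: the row identity (integrability of the tower). -/
def C2Stmt : Prop :=
  ∀ (ρ : C2 → ℝ), ContDiff ℝ ((⊤ : ℕ∞) : WithTop ℕ∞) ρ → ∀ U : Set C2, IsOpen U →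
    (∀ p ∈ U, g2 ρ p ≠ 0) → ∀ c : ℕ → C2 → ℂ, (∀ k, ContDiffOn ℝ 2 (c k) U) →
    ∀ (k : ℕ), ∀ p ∈ U,
      dzb 0 (Dk ρ c k 1) p - dzb 1 (Dk ρ c k 0) p
      + ((k : ℂ) + 1) * (fC ρ 0 p * Dk ρ c (k + 1) 1 p - fC ρ 1 p * Dk ρ c (k + 1) 0 p)
      + (k : ℂ) * ((fE ρ 0 p - fA ρ 0 p) * Dk ρ c k 1 p - (fE ρ 1 p - fA ρ 1 p) * Dk ρ c k 0 p)
      - ((k - 1 : ℕ) : ℂ) * (fB ρ 0 p * Dk ρ c (k - 1) 1 p - fB ρ 1 p * Dk ρ c (k - 1) 0 p) = 0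

/-! Module table (uses):
B1 : -            (A1 may be used)
B2 : -            (A1 may be used)
B4 : -
B5 : B4
B6 : TCoreStmt, B1, B2, B5 -> T1Stmt
C1 : -
C2 : C1
C3 : T1Stmt -> T2aStmt
C4 : C2, T2aStmt -> T2Stmt
-/

end Pool.Agent.AK
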