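import Mathlib
import Pool.Agent.Helper60_AK.StmtB
import Pool.Agent.Helper14_DK.Defs

set_option autoImplicit false

/-!
Squad AK, part F: the approximate extension.  From the tower (T2Stmt) and a function f in A^{k0}
we build F, close to f in C^{k0}, defined on {rho < kappa}, with |dbar F| <= kappa^M.
-/

namespace Pool.Agent.AK

open Complex

/-- smoothness infinity. -/
abbrev SM : WithTop ℕ∞ := ((⊤ : ℕ∞) : WithTop ℕ∞)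

/-! ### F0: the function f -/

/-- bounds and uniform continuity of the derivatives of f inside Omega. -/
structure BdF (Ω : Set C2) (f : C2 → ℂ) (k0 : ℕ) (B : ℝ) : Prop where
  hol : DifferentiableOn ℂ f Ω
  smooth : ContDiffOn ℝ SM f Ω
  bdd : ∀ j ≤ k0, ∀ x ∈ Ω, ‖iteratedFDeriv ℝ j f x‖ ≤ B
  unif : ∀ j ≤ k0, ∀ δ : ℝ, 0 < δ → ∃ r : ℝ, 0 < r ∧ ∀ x ∈ Ω, ∀ y ∈ Ω, ‖x - y‖ < r →
    ‖iteratedFDeriv ℝ j f x - iteratedFDeriv ℝ j f y‖ ≤ δ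

/-- F0a: several complex variables, a holomorphic function is smooth. -/
def F0aStmt : Prop :=
  ∀ (Ω : Set C2) (f : C2 → ℂ), IsOpen Ω → DifferentiableOn ℂ f Ω →
    ContDiffOn ℂ SM f Ω ∧ ContDiffOn ℝ SM f Ω

/-- F0. -/
def F0Stmt : Prop :=
  ∀ (Ω : Set C2) (ρ : C2 → ℝ) (f : C2 → ℂ) (k0 : ℕ), SmoothDom Ω ρ → DifferentiableOn ℂ f Ω →
    ContDiffOn ℝ (k0 : WithTop ℕ∞) f (closure Ω) → ∃ B : ℝ, BdF Ω f k0 B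

/-! ### F1: the derivatives F_k -/

/-- F_k(p,t): k-th derivative of f at p + t nu(p) in the complex direction tau(p). -/
noncomputable def Fk (ρ : C2 → ℝ) (f : C2 → ℂ) (k : ℕ) (p : C2) (t : ℝ) : ℂ :=
  iteratedDeriv k (fun lam : ℂ => f (p + (t : ℂ) • nu ρ p + lam • tau ρ p)) 0

/-- the natural (open) domain of F_k. -/
def FDom (Ω : Set C2) (ρ : C2 → ℝ) : Set (C2 × ℝ) :=
  {x | g2 ρ x.1 ≠ 0 ∧ x.1 + (x.2 : ℂ) • nu ρ x.1 ∈ Ω}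

/-- F1a: F_k is smooth, and has a Cauchy formula. -/
def F1aStmt : Prop :=
  ∀ (Ω : Set C2) (ρ : C2 → ℝ) (f : C2 → ℂ), IsOpen Ω → ContDiff ℝ SM ρ → DifferentiableOn ℂ f Ω →
    IsOpen (FDom Ω ρ) ∧ ContDiffOn ℝ SM (nu ρ) {p | g2 ρ p ≠ 0} ∧ ContDiff ℝ SM (tau ρ) ∧
    (∀ k : ℕ, ContDiffOn ℝ SM (fun x : C2 × ℝ => Fk ρ f k x.1 x.2) (FDom Ω ρ)) ∧
    ∀ (k : ℕ) (p : C2) (t r : ℝ), 0 < r → (∀ lam : ℂ, ‖lam‖ ≤ r →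
        p + (t : ℂ) • nu ρ p + lam • tau ρ p ∈ Ω) →
      Fk ρ f k p t = (k.factorial : ℂ) / (2 * (Real.pi : ℂ) * (r : ℂ) ^ k) *
        ∫ θ in (0 : ℝ)..(2 * Real.pi), exp (-((k : ℂ) * θ * I)) *
          f (p + (t : ℂ) • nu ρ p + ((r : ℂ) * exp ((θ : ℂ) * I)) • tau ρ p)

/-- F1b: the dbar of F_k (uses the structure equations C1). -/
def F1bStmt : Prop :=
  ∀ (Ω : Set C2) (ρ : C2 → ℝ) (f : C2 → ℂ), IsOpen Ω → ContDiff ℝ SM ρ → DifferentiableOn ℂ f Ω →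
    ∀ (k : ℕ) (p : C2) (t : ℝ), (p, t) ∈ FDom Ω ρ → ∀ i : Fin 2,
      dzb i (fun q => Fk ρ f k q t) p =
        (t : ℂ) * fA ρ i p * deriv (fun s => Fk ρ f k p s) t
        + (t : ℂ) * fB ρ i p * Fk ρ f (k + 1) p t
        + (k : ℂ) * fC ρ i p * deriv (fun s => Fk ρ f (k - 1) p s) t
        + (k : ℂ) * fE ρ i p * Fk ρ f k p t

/-! ### F2: geometry -/

/-- geometry of the collar V of the hypersurface. -/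
structure Geo (Ω : Set C2) (ρ : C2 → ℝ) (V : Set C2) (t0 c2 : ℝ) : Prop where
  opn : IsOpen V
  bd : {p | ρ p = 0} ⊆ V
  cpt : IsCompact (closure V)
  g2ne : ∀ p ∈ closure V, g2 ρ p ≠ 0
  t0pos : 0 < t0
  t0le : t0 ≤ 1
  c2pos : 0 < c2
  c2le : c2 ≤ 1
  disc : ∀ p ∈ closure V, ∀ t : ℝ, 0 < t → t ≤ t0 → ρ p ≤ t / 2 → ∀ lam : ℂ,
    ‖lam‖ ≤ c2 * Real.sqrt t → ρ (p + (t : ℂ) • nu ρ p + lam • tau ρ p) ≤ -t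
  deep : ∀ p ∈ closure V, ρ p < 0 → ∀ t : ℝ, 0 ≤ t → t ≤ t0 → ∀ w : C2, ‖w‖ ≤ c2 * |ρ p| →
    ρ (p + (t : ℂ) • nu ρ p + w) < 0

/-- F2. -/
def F2Stmt : Prop :=
  ∀ (Ω : Set C2) (ρ : C2 → ℝ), SmoothDom Ω ρ → ∀ U : Set C2, IsOpen U → {p | ρ p = 0} ⊆ U →
    ∃ (V : Set C2) (t0 c2 : ℝ), Geo Ω ρ V t0 c2 ∧ closure V ⊆ U

/-- the part of the collar where the construction lives. -/
def Veps (ρ : C2 → ℝ) (V : Set C2) (ε : ℝ) : Set C2 := {p | p ∈ V ∧ ρ p < ε ^ 2 / 2}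

/-! ### F3: kernels -/

/-- entire functions, rapidly decreasing in horizontal strips. -/
def Dec (g : ℂ → ℂ) : Prop :=
  Differentiable ℂ g ∧ ∀ (N : ℕ) (R : ℝ), ∃ C : ℝ, ∀ z : ℂ, |z.im| ≤ R →
    ‖g z‖ ≤ C * Real.exp (-((N : ℝ) * |z.re|))

/-- F3a: closure properties. -/
def F3aStmt : Prop :=
  (∀ g : ℂ → ℂ, Dec g → Dec (deriv g)) ∧
  (∀ (g : ℂ → ℂ) (a : ℝ), Dec g → Dec (fun z => exp ((a : ℂ) * z) * g z)) ∧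
  (∀ g : ℂ → ℂ, Dec g → Dec (fun z => exp (-z) * g z)) ∧
  (∀ g : ℂ → ℂ, Dec g → Dec (fun z => exp z * g z)) ∧
  (∀ g h : ℂ → ℂ, Dec g → Dec h → Dec (fun z => g z + h z)) ∧
  (∀ (g : ℂ → ℂ) (c : ℂ), Dec g → Dec (fun z => c * g z)) ∧
  (∀ g : ℂ → ℂ, Dec g → ∀ c : ℂ, MeasureTheory.Integrable (fun x : ℝ => g ((x : ℂ) - c)) ∧
    ∫ x : ℝ, g ((x : ℂ) - c) = ∫ x : ℝ, g (x : ℂ)) ∧
  Dec (fun z => exp (-(z ^ 2 / 2)))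

/-- the kernels K = e^{-y} eta_1, h_{k,j} = (k - D)^{j-1} eta_k. -/
structure Ker (J : ℕ) (K : ℂ → ℂ) (h : ℕ → ℕ → ℂ → ℂ) : Prop where
  decK : Dec K
  dec : ∀ k j, Dec (h k j)
  dh : ∀ k j, k ≤ J + 1 → 1 ≤ j → ∀ z, deriv (h k j) z = (k : ℂ) * h k j z - h k (j + 1) z
  dm : ∀ k j, 1 ≤ k → k ≤ J + 1 → 1 ≤ j → ∀ z,
    deriv (fun w => exp (-w) * h k j w) z = - h (k - 1) j z
  up : ∀ k j, k ≤ J → 1 ≤ j → ∀ z,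
    exp z * h k j z = h (k + 1) (j + 1) z - (k : ℂ) * h (k + 1) j z
  dK : ∀ z, deriv K z = - h 0 1 z
  eK : ∀ z, exp z * K z = h 1 1 z
  mass : ∫ x : ℝ, K (x : ℂ) = 1
  momK : ∀ i : ℕ, 1 ≤ i → i ≤ J → ∫ x : ℝ, exp ((i : ℂ) * (x : ℂ)) * K (x : ℂ) = 0
  mom : ∀ i k j : ℕ, i + k ≤ J → 1 ≤ j → ∫ x : ℝ, exp ((i : ℂ) * (x : ℂ)) * h k j (x : ℂ) = 0

/-- F3b: kernels exist. -/
def F3bStmt : Prop := ∀ J : ℕ, ∃ (K : ℂ → ℂ) (h : ℕ → ℕ → ℂ → ℂ), Ker J K h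

/-! ### The integrals I_k[g] -/

noncomputable def Ik (ρ : C2 → ℝ) (f c0 : C2 → ℂ) (t0 ε : ℝ) (k : ℕ) (g : ℂ → ℂ) (p : C2) : ℂ :=
  (ε : ℂ) ^ k * ∫ L in (Real.log ε)..(Real.log (t0 / ε)),
    Fk ρ f k p (ε * Real.exp L) * g ((L : ℂ) - c0 p)

/-- boundary term at L. -/
noncomputable def bt (ρ : C2 → ℝ) (f c0 : C2 → ℂ) (ε : ℝ) (k : ℕ) (g : ℂ → ℂ) (p : C2)
    (L : ℝ) : ℂ :=
  (ε : ℂ) ^ k * Fk ρ f k p (ε * Real.exp L) * g ((L : ℂ) - c0 p)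

/-- bracket of boundary terms. -/
noncomputable def bk (ρ : C2 → ℝ) (f c0 : C2 → ℂ) (t0 ε : ℝ) (k : ℕ) (g : ℂ → ℂ) (p : C2) : ℂ :=
  bt ρ f c0 ε k g p (Real.log (t0 / ε)) - bt ρ f c0 ε k g p (Real.log ε)

/-- a function of class C^s near the closure of V. -/
def CS (V : Set C2) (s : ℕ) (u : C2 → ℂ) : Prop :=
  ∃ U : Set C2, IsOpen U ∧ closure V ⊆ U ∧ ContDiffOn ℝ (s : WithTop ℕ∞) u U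

/-- the standing assumptions on the domain and on f. -/
structure SetA (Ω : Set C2) (ρ : C2 → ℝ) (f : C2 → ℂ) (k0 : ℕ) (B : ℝ) (V : Set C2)
    (t0 c2 : ℝ) : Prop where
  dom : SmoothDom Ω ρ
  bf : BdF Ω f k0 B
  k0pos : 1 ≤ k0
  geo : Geo Ω ρ V t0 c2

/-! ### Analysis lemmas -/

/-- L4: integrals depending on a parameter. -/
def L4Stmt : Prop :=
  ∀ (V : Set C2) (a b : ℝ) (H : C2 → ℝ → ℂ) (O : Set (C2 × ℝ)) (n : ℕ), IsOpen V → a ≤ b →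
    IsOpen O → V ×ˢ Set.Icc a b ⊆ O →
    ContDiffOn ℝ (n : WithTop ℕ∞) (fun x : C2 × ℝ => H x.1 x.2) O →
    ContDiffOn ℝ (n : WithTop ℕ∞) (fun q => ∫ s in a..b, H q s) V ∧
    (∀ j ≤ n, ∀ q ∈ V,
      ContinuousOn (fun s => iteratedFDeriv ℝ j (fun x => H x s) q) (Set.Icc a b) ∧
      ‖iteratedFDeriv ℝ j (fun x => ∫ s in a..b, H x s) q‖ ≤
        ∫ s in a..b, ‖iteratedFDeriv ℝ j (fun x => H x s) q‖) ∧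
    (1 ≤ n → ∀ q ∈ V, ∀ i : Fin 2,
      dzb i (fun x => ∫ s in a..b, H x s) q = ∫ s in a..b, dzb i (fun x => H x s) q)

/-- L3: derivatives of g(L - c0(q)). -/
def L3Stmt : Prop :=
  ∀ (V : Set C2) (s : ℕ) (c0 : C2 → ℂ), IsCompact (closure V) → CS V s c0 →
    ∀ (g : ℂ → ℂ), Dec g → ∀ N : ℕ, ∃ C : ℝ, ∀ j ≤ s, ∀ (L : ℝ), ∀ q ∈ V,
      ‖iteratedFDeriv ℝ j (fun x => g ((L : ℂ) - c0 x)) q‖ ≤ C * Real.exp (-((N : ℝ) * |L|))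

/-- L0: bounds of derivatives of f (q + t nu + lam tau). -/
def L0Stmt : Prop :=
  ∀ (Ω : Set C2) (ρ : C2 → ℝ) (f : C2 → ℂ) (k0 : ℕ) (B : ℝ) (V : Set C2) (t0 c2 : ℝ),
    SetA Ω ρ f k0 B V t0 c2 → ∃ C : ℝ, ∀ j ≤ k0, ∀ (t : ℝ), 0 < t → t ≤ t0 → ∀ q ∈ V,
      ρ q < t / 2 → ∀ lam : ℂ, ‖lam‖ ≤ c2 * Real.sqrt t →
      ‖iteratedFDeriv ℝ j (fun x => f (x + (t : ℂ) • nu ρ x + lam • tau ρ x)) q‖ ≤ C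

/-- L1: the derivatives of f (q + t nu(q)) are close to those of f. -/
def L1Stmt : Prop :=
  ∀ (Ω : Set C2) (ρ : C2 → ℝ) (f : C2 → ℂ) (k0 : ℕ) (B : ℝ) (V : Set C2) (t0 c2 : ℝ),
    SetA Ω ρ f k0 B V t0 c2 → ∀ δ : ℝ, 0 < δ → ∃ r : ℝ, 0 < r ∧ r ≤ t0 ∧
      ∀ t : ℝ, 0 < t → t < r → ∀ q ∈ V, ρ q < t / 2 → ∀ p ∈ Ω, ‖p - q‖ ≤ r → ∀ j ≤ k0,
        ‖iteratedFDeriv ℝ j (fun x => f (x + (t : ℂ) • nu ρ x)) q - iteratedFDeriv ℝ j f p‖ ≤ δ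

/-- L5: derivatives of F_k. -/
def L5Stmt : Prop :=
  ∀ (Ω : Set C2) (ρ : C2 → ℝ) (f : C2 → ℂ) (k0 : ℕ) (B : ℝ) (V : Set C2) (t0 c2 : ℝ),
    SetA Ω ρ f k0 B V t0 c2 → ∀ k : ℕ, ∃ C : ℝ, ∀ j ≤ k0, ∀ (t : ℝ), 0 < t → t ≤ t0 → ∀ q ∈ V,
      ρ q < t / 2 → ‖iteratedFDeriv ℝ j (fun x => Fk ρ f k x t) q‖ ≤ C / Real.sqrt t ^ k

/-- L6: I_k[g] is of class C^{k0} with derivatives O(eps^{k/2}). -/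
def L6Stmt : Prop :=
  ∀ (Ω : Set C2) (ρ : C2 → ℝ) (f : C2 → ℂ) (k0 : ℕ) (B : ℝ) (V : Set C2) (t0 c2 : ℝ),
    SetA Ω ρ f k0 B V t0 c2 → ∀ c0 : C2 → ℂ, CS V (k0 + 1) c0 → ∀ (k : ℕ) (g : ℂ → ℂ), Dec g →
    ∃ C : ℝ, ∀ ε : ℝ, 0 < ε → ε < t0 →
      ContDiffOn ℝ ((k0 + 1 : ℕ) : WithTop ℕ∞) (Ik ρ f c0 t0 ε k g) (Veps ρ V ε) ∧
      ∀ j ≤ k0, ∀ q ∈ Veps ρ V ε,
        ‖iteratedFDeriv ℝ j (Ik ρ f c0 t0 ε k g) q‖ ≤ C * Real.sqrt ε ^ k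

/-- E3: the boundary terms are negligible. -/
def E3Stmt : Prop :=
  ∀ (Ω : Set C2) (ρ : C2 → ℝ) (f : C2 → ℂ) (k0 : ℕ) (B : ℝ) (V : Set C2) (t0 c2 : ℝ),
    SetA Ω ρ f k0 B V t0 c2 → ∀ c0 : C2 → ℂ, CS V 0 c0 → ∀ (k : ℕ) (g : ℂ → ℂ), Dec g →
    ∀ N : ℕ, ∃ C : ℝ, ∀ ε : ℝ, 0 < ε → ε < t0 → ∀ p ∈ Veps ρ V ε,
      ‖bk ρ f c0 t0 ε k g p‖ ≤ C * ε ^ N

/-- E2a: t-derivatives deep inside. -/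
def E2aStmt : Prop :=
  ∀ (Ω : Set C2) (ρ : C2 → ℝ) (f : C2 → ℂ) (k0 : ℕ) (B : ℝ) (V : Set C2) (t0 c2 : ℝ),
    SetA Ω ρ f k0 B V t0 c2 → ∀ k n : ℕ, ∃ C : ℝ, ∀ p ∈ V, ρ p < 0 → ∀ t : ℝ, 0 ≤ t → t ≤ t0 →
      ContDiffAt ℝ (n : WithTop ℕ∞) (fun s => Fk ρ f k p s) t ∧
      ‖iteratedDeriv n (fun s => Fk ρ f k p s) t‖ ≤ C / |ρ p| ^ (k + n)

/-- E2: asymptotics deep inside for kernels with vanishing moments. -/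
def E2Stmt : Prop :=
  ∀ (Ω : Set C2) (ρ : C2 → ℝ) (f : C2 → ℂ) (k0 : ℕ) (B : ℝ) (V : Set C2) (t0 c2 : ℝ),
    SetA Ω ρ f k0 B V t0 c2 → ∀ c0 : C2 → ℂ, CS V 0 c0 → ∀ (k N : ℕ) (g : ℂ → ℂ), Dec g →
    (∀ i : ℕ, 1 ≤ i → i ≤ N → ∫ x : ℝ, exp ((i : ℂ) * (x : ℂ)) * g (x : ℂ) = 0) →
    ∃ C : ℝ, ∀ ε : ℝ, 0 < ε → ε < t0 → ∀ p ∈ V, ρ p ≤ -ε →
      ‖Ik ρ f c0 t0 ε k g p - (∫ x : ℝ, g (x : ℂ)) * (ε : ℂ) ^ k * Fk ρ f k p 0‖ ≤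
        C * (ε / |ρ p|) ^ (N + 1 + k)

/-! ### dbar of the integrals and of the approximation -/

/-- F4: dbar of I_k[g]. -/
def F4Stmt : Prop :=
  ∀ (Ω : Set C2) (ρ : C2 → ℝ) (f : C2 → ℂ) (k0 : ℕ) (B : ℝ) (V : Set C2) (t0 c2 : ℝ),
    SetA Ω ρ f k0 B V t0 c2 → ∀ c0 : C2 → ℂ, CS V 1 c0 → ∀ (k : ℕ) (g : ℂ → ℂ),
    Differentiable ℂ g → ∀ ε : ℝ, 0 < ε → ε < t0 → ∀ p ∈ Veps ρ V ε, ∀ i : Fin 2,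
      dzb i (Ik ρ f c0 t0 ε k g) p =
        - (fA ρ i p + dzb i c0 p) * Ik ρ f c0 t0 ε k (deriv g) p
        + fB ρ i p * exp (c0 p) * Ik ρ f c0 t0 ε (k + 1) (fun y => exp y * g y) p
        - (k : ℂ) * fC ρ i p * exp (- c0 p) *
            Ik ρ f c0 t0 ε (k - 1) (deriv (fun y => exp (-y) * g y)) p
        + (k : ℂ) * fE ρ i p * Ik ρ f c0 t0 ε k g p
        + fA ρ i p * bk ρ f c0 t0 ε k g p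
        + (k : ℂ) * fC ρ i p * exp (- c0 p) * bk ρ f c0 t0 ε (k - 1) (fun y => exp (-y) * g y) p

/-- q_{j,k}: the coefficient of x^k in (1/j!) (sum_{i >= 1} c_i x^i)^j. -/
noncomputable def qf (c : ℕ → C2 → ℂ) : ℕ → ℕ → C2 → ℂ
  | 0, k => fun _ => if k = 0 then 1 else 0
  | (j + 1), k => fun p =>
      (1 / ((j : ℂ) + 1)) * ∑ i ∈ Finset.Icc 1 k, c i p * qf c j (k - i) p

/-- F5a: the generating function identity. -/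
def F5aStmt : Prop :=
  ∀ (ρ : C2 → ℝ) (c : ℕ → C2 → ℂ) (p : C2), (∀ k, DifferentiableAt ℝ (c k) p) →
    (∀ j k, k < j → qf c j k p = 0) ∧ (∀ j k, DifferentiableAt ℝ (qf c j k) p) ∧
    ∀ (j k : ℕ) (i : Fin 2),
      dzb i (qf c (j + 1) k) p + (k : ℂ) * (fE ρ i p - fA ρ i p) * qf c (j + 1) k p
      + (Dk ρ c 0 i p - fC ρ i p * c 1 p) * qf c j k p
      + (if k = 0 then 0 else
          fB ρ i p * (qf c j (k - 1) p - ((k : ℂ) - 1) * qf c (j + 1) (k - 1) p))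
      + ((k : ℂ) + 1) * fC ρ i p * qf c (j + 1) (k + 1) p
      = ∑ l ∈ Finset.range (k + 1), Dk ρ c l i p * qf c j (k - l) p

/-- the approximation. -/
noncomputable def Feps (ρ : C2 → ℝ) (f : C2 → ℂ) (c : ℕ → C2 → ℂ) (t0 ε : ℝ) (J : ℕ)
    (K : ℂ → ℂ) (h : ℕ → ℕ → ℂ → ℂ) (p : C2) : ℂ :=
  Ik ρ f (c 0) t0 ε 0 K p + ∑ k ∈ Finset.Icc 1 J, ∑ j ∈ Finset.Icc 1 k,
    exp ((k : ℂ) * c 0 p) * qf c j k p * Ik ρ f (c 0) t0 ε k (h k j) p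

/-- the small main part of dbar F_eps. -/
noncomputable def Main (ρ : C2 → ℝ) (f : C2 → ℂ) (c : ℕ → C2 → ℂ) (t0 ε : ℝ) (J : ℕ)
    (h : ℕ → ℕ → ℂ → ℂ) (i : Fin 2) (p : C2) : ℂ :=
  ∑ k ∈ Finset.range J, ∑ j ∈ Finset.range (k + 1), exp ((k : ℂ) * c 0 p) *
    (∑ l ∈ Finset.range (k + 1), Dk ρ c l i p * qf c j (k - l) p) *
    Ik ρ f (c 0) t0 ε k (h k (j + 1)) p

/-- the tower data on the collar. -/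
structure Tow (ρ : C2 → ℝ) (V : Set C2) (J s : ℕ) (c : ℕ → C2 → ℂ) (K' : ℝ) : Prop where
  sm : ∀ k, CS V s (c k)
  est : ∀ k < J, ∀ p ∈ V, ∀ i : Fin 2, ‖Dk ρ c k i p‖ ≤ K' * |ρ p| ^ J

/-- F5: the dbar of the approximation, exact up to indices J, J+1 and boundary terms. -/
def F5Stmt : Prop :=
  ∀ (Ω : Set C2) (ρ : C2 → ℝ) (f : C2 → ℂ) (k0 : ℕ) (B : ℝ) (V : Set C2) (t0 c2 : ℝ),
    SetA Ω ρ f k0 B V t0 c2 → ∀ (J : ℕ) (c : ℕ → C2 → ℂ) (K' : ℝ) (K : ℂ → ℂ)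
      (h : ℕ → ℕ → ℂ → ℂ), 1 ≤ J → Tow ρ V J (k0 + 1) c K' → Ker J K h →
    ∃ C : ℝ, ∀ ε : ℝ, 0 < ε → ε < t0 → ∀ p ∈ Veps ρ V ε, ∀ i : Fin 2,
      ‖dzb i (Feps ρ f c t0 ε J K h) p - Main ρ f c t0 ε J h i p‖ ≤
        C * ((∑ k ∈ Finset.Icc J (J + 1), ∑ j ∈ Finset.Icc 1 (J + 2),
                ‖Ik ρ f (c 0) t0 ε k (h k j) p‖)
          + ‖bk ρ f (c 0) t0 ε 0 K p‖
          + ∑ k ∈ Finset.range (J + 1), ∑ j ∈ Finset.Icc 1 J,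
              (‖bk ρ f (c 0) t0 ε k (h k j) p‖
              + ‖bk ρ f (c 0) t0 ε (k - 1) (fun y => exp (-y) * h k j y) p‖))

/-- E5: deep inside, all terms are small. -/
def E5Stmt : Prop :=
  ∀ (Ω : Set C2) (ρ : C2 → ℝ) (f : C2 → ℂ) (k0 : ℕ) (B : ℝ) (V : Set C2) (t0 c2 : ℝ),
    SetA Ω ρ f k0 B V t0 c2 → ∀ (J : ℕ) (c : ℕ → C2 → ℂ) (K' : ℝ) (K : ℂ → ℂ)
      (h : ℕ → ℕ → ℂ → ℂ), 1 ≤ J → Tow ρ V J (k0 + 1) c K' → Ker J K h →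
    ∃ C : ℝ, ∀ ε : ℝ, 0 < ε → ε < t0 → ∀ p ∈ V, ρ p ≤ -ε →
      (∀ k ≤ J, ∀ j : ℕ, 1 ≤ j → j ≤ J + 2 →
        ‖Ik ρ f (c 0) t0 ε k (h k j) p‖ ≤ C * (ε / |ρ p|) ^ (J + 1)) ∧
      ‖Feps ρ f c t0 ε J K h p - f p‖ ≤ C * (ε / |ρ p|) ^ (J + 1)

/-- F6: dbar F_eps is small. -/
def F6Stmt : Prop :=
  ∀ (Ω : Set C2) (ρ : C2 → ℝ) (f : C2 → ℂ) (k0 : ℕ) (B : ℝ) (V : Set C2) (t0 c2 : ℝ),
    SetA Ω ρ f k0 B V t0 c2 → ∀ (J : ℕ) (c : ℕ → C2 → ℂ) (K' : ℝ) (K : ℂ → ℂ)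
      (h : ℕ → ℕ → ℂ → ℂ), 1 ≤ J → Tow ρ V J (k0 + 1) c K' → Ker J K h →
    ∃ C : ℝ, ∀ ε : ℝ, 0 < ε → ε < t0 → ∀ p ∈ Veps ρ V ε, ∀ i : Fin 2,
      ‖dzb i (Feps ρ f c t0 ε J K h) p‖ ≤ C * Real.sqrt ε ^ J

/-- E4a: I_0[K] is close to f (q + eps nu(q)) in C^{k0}. -/
def E4aStmt : Prop :=
  ∀ (Ω : Set C2) (ρ : C2 → ℝ) (f : C2 → ℂ) (k0 : ℕ) (B : ℝ) (V : Set C2) (t0 c2 : ℝ),
    SetA Ω ρ f k0 B V t0 c2 → ∀ c0 : C2 → ℂ, CS V (k0 + 1) c0 → ∀ (K : ℂ → ℂ), Dec K →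
    (∫ x : ℝ, K (x : ℂ)) = 1 → ∀ δ : ℝ, 0 < δ → ∃ ε0 : ℝ, 0 < ε0 ∧ ε0 ≤ t0 ∧
      ∀ ε : ℝ, 0 < ε → ε < ε0 → ∀ q ∈ Veps ρ V ε, ∀ j ≤ k0,
        ‖iteratedFDeriv ℝ j (Ik ρ f c0 t0 ε 0 K) q
          - iteratedFDeriv ℝ j (fun x => f (x + (ε : ℂ) • nu ρ x)) q‖ ≤ δ

/-- E4: F_eps is close to f in C^{k0}. -/
def E4Stmt : Prop :=
  ∀ (Ω : Set C2) (ρ : C2 → ℝ) (f : C2 → ℂ) (k0 : ℕ) (B : ℝ) (V : Set C2) (t0 c2 : ℝ),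
    SetA Ω ρ f k0 B V t0 c2 → ∀ (J : ℕ) (c : ℕ → C2 → ℂ) (K' : ℝ) (K : ℂ → ℂ)
      (h : ℕ → ℕ → ℂ → ℂ), 1 ≤ J → Tow ρ V J (k0 + 1) c K' → Ker J K h →
    (∀ ε : ℝ, 0 < ε → ε < t0 → ContDiffOn ℝ ((k0 + 1 : ℕ) : WithTop ℕ∞)
      (Feps ρ f c t0 ε J K h) (Veps ρ V ε)) ∧
    ∀ δ : ℝ, 0 < δ → ∃ ε0 : ℝ, 0 < ε0 ∧ ε0 ≤ t0 ∧
      ∀ ε : ℝ, 0 < ε → ε < ε0 → ∀ q ∈ Veps ρ V ε, ∀ p ∈ Ω, ‖p - q‖ ≤ ε → ∀ j ≤ k0,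
        ‖iteratedFDeriv ℝ j (Feps ρ f c t0 ε J K h) q - iteratedFDeriv ℝ j f p‖ ≤ δ

/-- F: the result of part F. -/
def FStmt : Prop :=
  ∀ (Ω : Set C2) (ρ : C2 → ℝ) (f : C2 → ℂ) (k0 : ℕ), SmoothDom Ω ρ →
    HasCompactSupport (fun z => 1 - ρ z) → 1 ≤ k0 → DifferentiableOn ℂ f Ω →
    ContDiffOn ℝ (k0 : WithTop ℕ∞) f (closure Ω) →
    ∀ (M : ℕ) (δ κ1 c : ℝ), 0 < δ → 0 < κ1 → 0 < c → ∃ κ : ℝ, 0 < κ ∧ κ ≤ κ1 ∧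
      ∃ F : C2 → ℂ, ContDiffOn ℝ (k0 : WithTop ℕ∞) F {z | ρ z < κ} ∧
        (∀ z, ρ z < κ → ∀ j, ‖dzb j F z‖ ≤ κ ^ M) ∧
        ∀ j ≤ k0, ∀ x, ρ x < 0 → ∀ y ∈ Metric.ball x (c * κ), ρ y < κ →
          ‖iteratedFDeriv ℝ j F y - iteratedFDeriv ℝ j f x‖ ≤ δ

/-- F7: the patching. -/
def F7Stmt : Prop :=
  T2Stmt → F0Stmt → F2Stmt → F3bStmt → E4Stmt → E5Stmt → F6Stmt → FStmt

/-- the case n = 2 of the problem, literally. -/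
def ResStmt : Prop :=
  ∀ (Ω : Set (Fin 2 → ℂ)) (ρ : (Fin 2 → ℂ) → ℝ),
    ContDiff ℝ ((⊤ : ℕ∞) : WithTop ℕ∞) ρ →
    Ω = {z | ρ z < 0} →
    Bornology.IsBounded Ω →
    IsConnected Ω →
    (∀ p, ρ p = 0 → fderiv ℝ ρ p ≠ 0) →
    (∀ p, ρ p = 0 → ∀ w : Fin 2 → ℂ, fderiv ℝ ρ p w = 0 →
        fderiv ℝ ρ p (Complex.I • w) = 0 →
        0 ≤ iteratedFDeriv ℝ 2 ρ p ![w, w]
          + iteratedFDeriv ℝ 2 ρ p ![Complex.I • w, Complex.I • w]) →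
    ∀ k : ℕ, 1 ≤ k →
    ∀ f : (Fin 2 → ℂ) → ℂ, DifferentiableOn ℂ f Ω →
      ContDiffOn ℝ (k : WithTop ℕ∞) f (closure Ω) →
    ∀ ε : ℝ, 0 < ε →
      ∃ g : (Fin 2 → ℂ) → ℂ, DifferentiableOn ℂ g Ω ∧
        ContDiffOn ℝ ((⊤ : ℕ∞) : WithTop ℕ∞) g (closure Ω) ∧
        ∀ j : ℕ, j ≤ k → ∀ x ∈ Ω,
          ‖iteratedFDeriv ℝ j (fun z => f z - g z) x‖ < ε

/-- FIN: the assembly. -/
def FinStmt : Prop := Pool.Agent.DK.NiceStmt → Pool.Agent.DK.SStmt → FStmt → ResStmt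

/-! Module table (uses):
F0a : -                         (Pool.Agent.Helper23_Squeeze.Holo has the key lemma)
F0  : F0a
F1a : F0a
F1b : C1, F1a
F2  : -
F3a : -
F3b : F3a
L4  : -
L3  : F3a
L0  : -  (F1a for smoothness of nu, tau)
L1  : L0
L5  : F1a L0 L4
L6  : F1a L3 L4 L5 F3a
E3  : L5
E2a : -
E2  : E2a F3a
F4  : F1a F1b L4
F5a : -
F5  : F4 F5a L6
E5  : E2 F5a
F6  : F5 E3 E5 L6
E4a : L0 L1 L3 L4 F1a F3a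
E4  : L1 L6 E4a F5a
F7  : T2Stmt F0 F2 F3b E4 E5 F6 -> FStmt
FIN : DK.NiceStmt DK.SStmt FStmt -> ResStmt
-/

end Pool.Agent.AK
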