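import Pool.Agent.Helper14_DK.All
import Pool.Agent.Helper44_DK.Apr
import Pool.Agent.Helper59_AK.A1
import Pool.Agent.Helper32_AK.A2
import Pool.Agent.Helper32_AK.A3
import Pool.Agent.Helper19_AK.A4
import Pool.Agent.Helper7_AK.A5
import Pool.Agent.Helper15_AK.A6
import Pool.Agent.Helper39_AK.A7
import Pool.Agent.Helper39_AK.A8
import Pool.Agent.Helper15_AK.A9
import Pool.Agent.Helper7_AK.A10
import Pool.Agent.Helper59_AK.B1
import Pool.Agent.Helper81_AK.B2
import Pool.Agent.Helper70_AK.Geom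
import Pool.Agent.Helper70_AK.Data
import Pool.Agent.Helper50_AK.B6
import Pool.Agent.Helper72_AK.C1
import Pool.Agent.Helper72_AK.C2
import Pool.Agent.Helper41_AK.C3
import Pool.Agent.Helper17_AK.C4
import Pool.Agent.Helper59_AK.F0a
import Pool.Agent.Helper20_AK.F0
import Pool.Agent.Helper97_AK.F1a
import Pool.Agent.Helper50_AK.F1b
import Pool.Agent.Helper97_AK.F2
import Pool.Agent.Helper37_AK.F3a
import Pool.Agent.Helper37_AK.F3b
import Pool.Agent.Helper34_AK.L4
import Pool.Agent.Helper47_AK.L3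
import Pool.Agent.Helper32_AK.L01
import Pool.Agent.Helper55_AK.L5
import Pool.Agent.Helper55_AK.L6
import Pool.Agent.Helper19_AK.E3
import Pool.Agent.Helper47_AK.E2a
import Pool.Agent.Helper34_AK.E2
import Pool.Agent.Helper69_AK.F4
import Pool.Agent.Helper54_AK.F5a
import Pool.Agent.Helper54_AK.F5
import Pool.Agent.Helper50_AK.E5
import Pool.Agent.Helper70_AK.F6
import Pool.Agent.Helper51_AK.E4a
import Pool.Agent.Helper51_AK.E4
import Pool.Agent.Helper70_AK.F7
import Pool.Agent.Helper97_AK.Fin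

/-!
Squad AK: assembly.  The space A^infinity is dense in A^k for every smoothly bounded
pseudoconvex domain of C^2.
-/

set_option autoImplicit false

namespace Pool.Agent.AK

open Pool.Agent.DK

/-- Hoermander's theorem. -/
theorem hStmt : HStmt := hStmt_of' (H44.apr (DK.H59.ident DK.H18.lb))

/-- part S. -/
theorem sStmt : SStmt := sStmt_of' (H44.apr (DK.H59.ident DK.H18.lb))

theorem a5' : A5Stmt := H7.a5 H59.a1 H19.a4
theorem a2' : A2Stmt := H32.a2 H59.a1
theorem a3' : A3Stmt := H32.a3 H59.a1 a2'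
theorem a7' : A7Stmt := H39.a7 H59.a1 a2'
theorem a8' : A8Stmt := H39.a8 H59.a1 a2' a3' a5' a7'
theorem a6' : A6Stmt := H15.a6 H59.a1 a2' a3' a5'
theorem mi' : MIStmt := H15.mi H59.a1 a2' a3' a5' a6' a8'
theorem tcore : TCoreStmt := H7.a10 H59.a1 a3' mi'
theorem b2' : B2Stmt := H81.b2 H19.a4 H59.b1
theorem b5' : B5Stmt := H70.b5 H70.b4
theorem t1 : T1Stmt := H50.b6 tcore H59.b1 b2' b5'
theorem t2a : T2aStmt := H41.t2a t1
theorem t2 : T2Stmt := H17.c4 H72.c2 t2a

theorem f1a' : F1aStmt := H97.f1a H59.f0a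
theorem f1b' : F1bStmt := H50.f1b H72.c1 f1a'
theorem l0' : L0Stmt := H32.l0 f1a'
theorem l1' : L1Stmt := H32.l1 l0'
theorem l3' : L3Stmt := H47.l3 H37.f3a
theorem l5' : L5Stmt := H55.l5 f1a' l0' H34.l4
theorem l6' : L6Stmt := H55.l6 f1a' l3' H34.l4 l5' H37.f3a
theorem e3' : E3Stmt := H19.e3 l5'
theorem e2' : E2Stmt := H34.e2 (H47.e2a f1a') H37.f3a
theorem f4' : F4Stmt := H69.f4 f1a' f1b' H34.l4
theorem f5' : F5Stmt := H54.f5 f4' H54.f5a l6' f1a'
theorem e5' : E5Stmt := H50.e5 e2' H54.f5a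
theorem f6' : F6Stmt := H70.f6 f5' e3' e5' l6'
theorem e4a' : E4aStmt := H51.e4a l0' l1' l3' H34.l4 f1a' H37.f3a
theorem e4' : E4Stmt := H51.e4 l1' l6' e4a'
theorem fmain : FStmt := H70.f7 t2 (H20.f0 H59.f0a) H97.f2 H37.f3b e4' e5' f6'

/-- **A^infinity is dense in A^k, n = 2.** -/
theorem res : ResStmt := H97.fin DK.H68.nice sStmt fmain

end Pool.Agent.AK
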